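import Pool.Agent.N696.LI.Stm

/-!
# Project LI (helper696): density of rational Reeb vectors from the open orbit condition (helper717)
-/

set_option autoImplicit false

namespace Pool.Agent.N717.LI

open Topology MvPolynomial Pool.Agent.N696.LI Matrix

theorem hom_eval {m d : ℕ} {Q : MvPolynomial (Fin m) ℝ} (h : Q.IsHomogeneous d) (c : ℝ)
    (ν : Fin m → ℝ) : eval (c • ν) Q = c ^ d * eval ν Q := by
  rw [eval_eq', eval_eq', Finset.mul_sum]
  refine Finset.sum_congr rfl fun e he => ?_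
  have h1 : ∑ i, e i = d := by
    have h2 : Finsupp.weight (fun _ => (1 : ℕ)) e = d := h (mem_support_iff.1 he)
    rw [← Finsupp.degree_eq_weight_one, Finsupp.degree_eq_sum] at h2
    exact h2
  have h2 : ∏ i, (c • ν) i ^ e i = c ^ d * ∏ i, ν i ^ e i := by
    rw [← h1, ← Finset.prod_pow_eq_pow_sum, ← Finset.prod_mul_distrib]
    refine Finset.prod_congr rfl fun i _ => ?_
    rw [Pi.smul_apply, smul_eq_mul, mul_pow]
  rw [h2]
  ring

section
attribute [local instance] Matrix.linftyOpNormedRing Matrix.linftyOpNormedAlgebra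

theorem exp_eig {m : ℕ} (M : Mat m) (ν : Fin m → ℝ) (h : M.mulVec ν = ν) :
    (NormedSpace.exp M).mulVec ν = Real.exp 1 • ν := by
  have h1 := NormedSpace.exp_series_hasSum_exp' (𝕂 := ℝ) M
  have hL : Continuous (fun M : Mat m => M.mulVec ν) := by fun_prop
  have h2 : HasSum (fun n : ℕ => (((n.factorial : ℝ)⁻¹) • M ^ n).mulVec ν)
      ((NormedSpace.exp M).mulVec ν) :=
    h1.map ((Matrix.mulVecBilin ℝ ℝ).flip ν) hL
  have h3 : ∀ n : ℕ, (M ^ n).mulVec ν = ν := by
    intro n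
    induction n with
    | zero => simp
    | succ n ih => rw [pow_succ, ← Matrix.mulVec_mulVec, h, ih]
  have h4 : HasSum (fun n : ℕ => ((n.factorial : ℝ)⁻¹) • ν) (Real.exp 1 • ν) := by
    have h5 := NormedSpace.exp_series_hasSum_exp' (𝕂 := ℝ) (1 : ℝ)
    rw [← Real.exp_eq_exp_ℝ] at h5
    simpa using h5.smul_const ν
  have h6 : (fun n : ℕ => (((n.factorial : ℝ)⁻¹) • M ^ n).mulVec ν) =
      fun n : ℕ => ((n.factorial : ℝ)⁻¹) • ν := by
    funext n
    rw [Matrix.smul_mulVec, h3]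
  rw [h6] at h2
  exact h2.unique h4

theorem exp_smul_one {m : ℕ} (s : ℝ) : NormedSpace.exp (s • (1 : Mat m)) = Real.exp s • 1 := by
  have h := NormedSpace.algebraMap_exp_comm (𝕂 := ℝ) (𝔸 := Mat m) s
  rw [Algebra.algebraMap_eq_smul_one, Algebra.algebraMap_eq_smul_one, ← Real.exp_eq_exp_ℝ] at h
  exact h.symm

end

theorem exp_mul_neg {m : ℕ} (M : Mat m) : NormedSpace.exp M * NormedSpace.exp (-M) = 1 := by
  rw [← Matrix.exp_add_of_commute _ _ ((Commute.refl M).neg_right), add_neg_cancel,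
    NormedSpace.exp_zero]

theorem exp_shift {m : ℕ} (M : Mat m) (s : ℝ) :
    NormedSpace.exp (s • (1 : Mat m) - Mᵀ) = Real.exp s • (NormedSpace.exp (-M))ᵀ := by
  rw [sub_eq_add_neg, Matrix.exp_add_of_commute _ _ ((Commute.one_left _).smul_left s),
    exp_smul_one, ← Matrix.transpose_neg, Matrix.exp_transpose, smul_mul_assoc, one_mul]

theorem dot_transpose {m : ℕ} (M : Mat m) (a b : Fin m → ℝ) :
    dotProduct a (Mᵀ.mulVec b) = dotProduct (M.mulVec a) b := by
  rw [Matrix.dotProduct_mulVec, Matrix.vecMul_transpose]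

theorem dc (hopen : S_open) : S_dc := by
  intro m F _ _ _ D G Γ d Q hG hQ hDC ν hν U hU
  -- the Reeb vector
  obtain ⟨x0, hR, h1⟩ : ∃ x0 : Fin m → ℝ, Reeb D ν x0 ∧ dotProduct ν x0 = 1 := by
    set L : F →ₗ[ℝ] (Fin m → ℝ) := ((Matrix.mulVecBilin ℝ ℝ).flip ν).comp D with hL
    have hLa : ∀ X, L X = (D X).mulVec ν := fun X => rfl
    have hno : ν ∉ LinearMap.range L := by
      rintro ⟨X, hX⟩
      rw [hLa] at hX
      have h2 := exp_eig (D X) ν hX
      obtain ⟨g, hg, hge⟩ := hG.exp_mem X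
      have h3 := hQ.inv g hg ν
      rw [hge, h2, hom_eval hQ.hom] at h3
      have h4 : Real.exp 1 ^ d = 1 := by
        have h5 : (Real.exp 1 ^ d - 1) * eval ν Q = 0 := by linarith
        rcases mul_eq_zero.1 h5 with h6 | h6
        · linarith
        · exact absurd h6 hν
      have h5 : (1 : ℝ) < Real.exp 1 ^ d :=
        one_lt_pow₀ (Real.one_lt_exp_iff.2 one_pos) (by have := hQ.hd; omega)
      linarith
    obtain ⟨φ, hφ, hker⟩ := Submodule.exists_le_ker_of_notMem hno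
    have hdot : ∀ y : Fin m → ℝ, dotProduct y (fun i => φ (Pi.single i 1) / φ ν) = φ y / φ ν := by
      intro y
      have h2 : φ y = ∑ i, y i * φ (Pi.single i 1) := by
        conv_lhs => rw [pi_eq_sum_univ' y]
        rw [map_sum]
        refine Finset.sum_congr rfl fun i _ => ?_
        rw [map_smul, smul_eq_mul]
      rw [h2, dotProduct, Finset.sum_div]
      refine Finset.sum_congr rfl fun i _ => ?_
      ring
    refine ⟨fun i => φ (Pi.single i 1) / φ ν, fun X => ?_, ?_⟩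
    · rw [hdot]
      have h2 : (D X).mulVec ν ∈ LinearMap.ker φ := hker ⟨X, hLa X⟩
      rw [LinearMap.mem_ker.1 h2, zero_div]
    · rw [hdot, div_self hφ]
  -- the open orbit
  have hy := hDC ν hν x0 hR (by rw [h1]; exact one_ne_zero)
  set D' : (F × ℝ) →ₗ[ℝ] Mat m :=
    (LinearMap.toSpanSingleton ℝ (Mat m) 1).comp (LinearMap.snd ℝ F ℝ) -
      (Matrix.transposeLinearEquiv (Fin m) (Fin m) ℝ ℝ).toLinearMap.comp
        (D.comp (LinearMap.fst ℝ F ℝ)) with hD'
  have hDa : ∀ p : F × ℝ, D' p = p.2 • (1 : Mat m) - (D p.1)ᵀ := fun p => rfl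
  have hsurj : ∀ y, ∃ p, y = (D' p).mulVec x0 := by
    intro y
    obtain ⟨X, c, hXc⟩ := hy y
    refine ⟨(-X, c), ?_⟩
    rw [hDa, hXc]
    simp only [map_neg, Matrix.transpose_neg, sub_neg_eq_add, Matrix.add_mulVec,
      Matrix.smul_mulVec, Matrix.one_mulVec]
    rw [add_comm]
  have hU' : U ×ˢ (Set.univ : Set ℝ) ∈ 𝓝 (0 : F × ℝ) := by
    rw [show (0 : F × ℝ) = (0, 0) from rfl]
    exact prod_mem_nhds hU Filter.univ_mem
  have hop := hopen m (F × ℝ) D' x0 hsurj _ hU'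
  have hdense : DenseRange (Pi.map (fun (_ : Fin m) (q : ℚ) => (q : ℝ))) :=
    DenseRange.piMap fun _ => Rat.denseRange_cast
  obtain ⟨x, hx⟩ := hdense.exists_mem_open isOpen_interior
    ⟨x0, mem_interior_iff_mem_nhds.2 hop⟩
  obtain ⟨⟨X, s⟩, hXU, hxe⟩ := interior_subset hx
  have hXU' : X ∈ U := hXU.1
  have hxe' : (fun i => (x i : ℝ)) = Real.exp s • ((NormedSpace.exp (-(D X)))ᵀ.mulVec x0) := by
    rw [← Matrix.smul_mulVec, ← exp_shift]
    exact hxe
  refine ⟨X, hXU', x, ?_, ?_⟩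
  · rw [hxe', dotProduct_smul, dot_transpose, Matrix.mulVec_mulVec]
    have h2 : NormedSpace.exp (-(D X)) * NormedSpace.exp (D X) = 1 := by
      have h3 := exp_mul_neg (-(D X))
      rwa [neg_neg] at h3
    rw [h2, Matrix.one_mulVec, h1, smul_eq_mul, mul_one]
    exact Real.exp_pos s
  · intro Y
    obtain ⟨g, hg, hge⟩ := hG.exp_mem X
    have hgi : ((g⁻¹ : (Mat m)ˣ) : Mat m) = NormedSpace.exp (-(D X)) := by
      apply Units.inv_eq_of_mul_eq_one_right
      rw [hge]
      exact exp_mul_neg _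
    obtain ⟨Y', hY'⟩ := hG.conj g⁻¹ (G.inv_mem hg) Y
    rw [hxe', dotProduct_smul, dot_transpose, Matrix.mulVec_mulVec, Matrix.mulVec_mulVec]
    have h2 : NormedSpace.exp (-(D X)) * D Y * NormedSpace.exp (D X) = D Y' := by
      rw [hY', hgi, inv_inv, hge]
    rw [h2, hR Y', smul_zero]

end Pool.Agent.N717.LI
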